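import Pool.Agent.helper22.DL.SpecE1

/-! # dl:EFN: Nemytskii operators on `C(K, E)` -/

namespace Pool.Agent.DL

open Matrix Complex MeasureTheory Set Filter Topology
open scoped ComplexOrder Manifold ContDiff ComplexConjugate

noncomputable section

section
variable {K E F : Type} [TopologicalSpace K] [CompactSpace K] [NormedAddCommGroup E]
  [NormedSpace ℝ E] [NormedAddCommGroup F] [NormedSpace ℝ F]

/-- pointwise application -/
def EFN_ap (T : C(K, E →L[ℝ] F)) (h : C(K, E)) : C(K, F) :=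
  ⟨fun z => T z (h z), T.continuous.clm_apply h.continuous⟩

/-- pointwise application as a bilinear map -/
def EFN_L : C(K, E →L[ℝ] F) →L[ℝ] (C(K, E) →L[ℝ] C(K, F)) :=
  LinearMap.mkContinuous₂ (LinearMap.mk₂ ℝ (EFN_ap (K := K) (E := E) (F := F))
    (fun _ _ _ => rfl) (fun _ _ _ => rfl)
    (fun T h h' => by ext z; exact map_add (T z) _ _)
    (fun c T h => by ext z; exact map_smul (T z) c _)) 1 (by
      intro T h
      rw [one_mul]
      refine (ContinuousMap.norm_le _ (by positivity)).mpr fun z => ?_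
      change ‖T z (h z)‖ ≤ ‖T‖ * ‖h‖
      have h1 : ‖T z‖ ≤ ‖T‖ := T.norm_coe_le_norm z
      have h2 : ‖h z‖ ≤ ‖h‖ := h.norm_coe_le_norm z
      have h3 : 0 ≤ ‖h z‖ := norm_nonneg _
      have h4 : 0 ≤ ‖T‖ := by positivity
      exact ((T z).le_opNorm _).trans (mul_le_mul h1 h2 h3 h4))

theorem EFN_L_apply (T : C(K, E →L[ℝ] F)) (h : C(K, E)) (z : K) : EFN_L T h z = T z (h z) := rfl

/-- the Nemytskii operator -/
def EFN_S (G : K → E → F) (hG : Continuous (fun x : K × E => G x.1 x.2)) (f : C(K, E)) : C(K, F) :=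
  ⟨fun z => G z (f z), hG.comp (continuous_id.prodMk f.continuous)⟩

theorem EFN_unif (G : K → E → F) (hG : Continuous (fun x : K × E => G x.1 x.2)) (f : C(K, E))
    (ε : ℝ) (hε : 0 < ε) : ∃ δ > 0, ∀ e : E, ‖e‖ < δ → ∀ z, ‖G z (f z + e) - G z (f z)‖ < ε := by
  have h1 : ∀ᶠ e : E in 𝓝 0, ∀ z ∈ (univ : Set K), ‖G z (f z + e) - G z (f z)‖ < ε := by
    refine isCompact_univ.eventually_forall_of_forall_eventually fun z _ => ?_
    have hc : Continuous (fun p : E × K => ‖G p.2 (f p.2 + p.1) - G p.2 (f p.2)‖) := by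
      refine Continuous.norm (Continuous.sub ?_ ?_)
      · exact hG.comp (continuous_snd.prodMk ((f.continuous.comp continuous_snd).add
          continuous_fst))
      · exact hG.comp (continuous_snd.prodMk (f.continuous.comp continuous_snd))
    refine hc.continuousAt.eventually (gt_mem_nhds ?_)
    simpa using hε
  obtain ⟨δ, hδ, h2⟩ := Metric.eventually_nhds_iff.mp h1
  refine ⟨δ, hδ, fun e he z => h2 ?_ z (mem_univ _)⟩
  rwa [dist_zero_right]

theorem EFN_cont (G : K → E → F) (hG : Continuous (fun x : K × E => G x.1 x.2)) :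
    Continuous (EFN_S G hG) := by
  rw [Metric.continuous_iff]
  intro f ε hε
  obtain ⟨δ, hδ, h⟩ := EFN_unif G hG f (ε / 2) (by positivity)
  refine ⟨δ, hδ, fun g hg => ?_⟩
  rw [dist_eq_norm] at hg ⊢
  refine lt_of_le_of_lt ((ContinuousMap.norm_le _ (by positivity)).mpr fun z => ?_)
    (half_lt_self hε)
  have h1 := h (g z - f z) (lt_of_le_of_lt ((g - f).norm_coe_le_norm z) hg) z
  rw [add_sub_cancel] at h1
  exact h1.le

end

theorem EFN : EFN_stmt := by
  intro K E F _ _ _ _ _ _ _ G G' hG hG' hd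
  let N' : C(K, E) → C(K, E →L[ℝ] F) := EFN_S G' hG'
  have hder : ∀ f, HasFDerivAt (EFN_S G hG) (EFN_L (N' f)) f := by
    intro f
    rw [hasFDerivAt_iff_isLittleO_nhds_zero, Asymptotics.isLittleO_iff]
    intro ε hε
    obtain ⟨δ, hδ, hu⟩ := EFN_unif G' hG' f ε hε
    filter_upwards [Metric.ball_mem_nhds (0 : C(K, E)) hδ] with h hh
    rw [mem_ball_zero_iff] at hh
    refine (ContinuousMap.norm_le _ (by positivity)).mpr fun z => ?_
    change ‖G z (f z + h z) - G z (f z) - G' z (f z) (h z)‖ ≤ _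
    have hz : ‖h z‖ < δ := lt_of_le_of_lt (h.norm_coe_le_norm z) hh
    have h1 := Convex.norm_image_sub_le_of_norm_hasFDerivWithin_le' (𝕜 := ℝ) (f := G z)
      (f' := G' z) (φ := G' z (f z)) (C := ε) (s := Metric.ball (f z) δ) (x := f z)
      (y := f z + h z) (fun x _ => (hd z x).hasFDerivWithinAt) (fun x hx => by
        have h2 := hu (x - f z) (by rwa [mem_ball_iff_norm] at hx) z
        rw [add_sub_cancel] at h2
        exact h2.le) (convex_ball _ _) (Metric.mem_ball_self hδ) (by
        rw [mem_ball_iff_norm, add_sub_cancel_left]; exact hz)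
    rw [add_sub_cancel_left] at h1
    exact h1.trans (mul_le_mul_of_nonneg_left (h.norm_coe_le_norm z) hε.le)
  have hfd : fderiv ℝ (EFN_S G hG) = fun f => EFN_L (N' f) := funext fun f => (hder f).fderiv
  refine ⟨EFN_S G hG, ?_, fun _ _ => rfl, ?_, ?_⟩
  · rw [contDiff_one_iff_fderiv]
    refine ⟨fun f => (hder f).differentiableAt, ?_⟩
    rw [hfd]
    exact EFN_L.continuous.comp (EFN_cont G' hG')
  · intro f h z
    rw [hfd]
    rfl
  · intro M
    have hcomp : IsCompact ((univ : Set K) ×ˢ Metric.closedBall (0 : E) M) :=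
      isCompact_univ.prod (isCompact_closedBall 0 M)
    obtain ⟨C, hC⟩ := hcomp.exists_bound_of_continuousOn hG.continuousOn
    refine ⟨max C 0, fun f hf => (ContinuousMap.norm_le _ (le_max_right _ _)).mpr fun z => ?_⟩
    refine (hC (z, f z) ⟨mem_univ _, ?_⟩).trans (le_max_left _ _)
    rw [mem_closedBall_zero_iff]
    exact (f.norm_coe_le_norm z).trans hf

end

end Pool.Agent.DL
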